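import Pool.Agent.Q65.FF.LU

/-!
Flag bundles (helper47), job J5: the infinitesimal form of the decomposition.
-/

set_option autoImplicit false

namespace Pool.Agent.Q65.FF

open Q47.FF Q47

theorem det_diff {n : Type} [Fintype n] [DecidableEq n] {M : ℂ → Matrix n n ℂ}
    (h : ∀ i j, Differentiable ℂ fun t => M t i j) : Differentiable ℂ fun t => (M t).det := by
  simp only [Matrix.det_apply]
  refine Differentiable.fun_sum fun σ _ => ?_
  exact (Differentiable.fun_finsetProd fun i _ => h _ _).const_smul _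

/-- the determinant with a row which is a combination of the rows plus a small vector -/
theorem det_row {n : Type} [Fintype n] [DecidableEq n] (M : Matrix n n ℂ) (u v : n → ℂ) (t : ℂ)
    (j : n) : (M.updateRow j ((∑ s, u s • M s) + t • v)).det =
      u j * M.det + t * (M.updateRow j v).det := by
  rw [Matrix.det_updateRow_add, Matrix.det_updateRow_smul, Matrix.det_updateRow_sum, smul_eq_mul]

theorem deriv_row {n : Type} [Fintype n] [DecidableEq n] (A B : Matrix n n ℂ) (hA : A.det ≠ 0)
    (r ρ : n → ℂ) (j : n)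
    (h : A.det * deriv (fun t : ℂ => ((A + t • B).updateRow j (r + t • ρ)).det) 0 =
      (A.updateRow j r).det * deriv (fun t : ℂ => (A + t • B).det) 0) :
    ∑ t, ρ t * A⁻¹ t j = ∑ s, (∑ t, r t * A⁻¹ t s) * ∑ t, B s t * A⁻¹ t j := by
  obtain ⟨u, hu⟩ : ∃ u : n → ℂ, u = fun s => ∑ t, r t * A⁻¹ t s := ⟨_, rfl⟩
  have huA : ∀ t, ∑ s, u s * A s t = r t := by
    intro t
    have h1 : Matrix.vecMul (Matrix.vecMul r A⁻¹) A t = r t := by
      rw [Matrix.vecMul_vecMul, Matrix.nonsing_inv_mul _ (isUnit_iff_ne_zero.2 hA), Matrix.vecMul_one]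
    rw [← h1]
    rw [hu]
    rfl
  obtain ⟨v, hv⟩ : ∃ v : n → ℂ, v = fun t => ρ t - ∑ s, u s * B s t := ⟨_, rfl⟩
  have e1 : (fun t : ℂ => ((A + t • B).updateRow j (r + t • ρ)).det) =
      fun t : ℂ => u j * (A + t • B).det + t * ((A + t • B).updateRow j v).det := by
    funext t
    rw [← det_row]
    congr 2
    funext x
    rw [Pi.add_apply, Pi.add_apply, Finset.sum_apply, Pi.smul_apply, Pi.smul_apply, hv]
    simp only [Pi.smul_apply, Matrix.add_apply, Matrix.smul_apply, smul_eq_mul, mul_add,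
      Finset.sum_add_distrib, mul_sub, Finset.mul_sum, huA]
    have h2 : ∑ s, u s * (t * B s x) = ∑ s, t * (u s * B s x) :=
      Finset.sum_congr rfl fun s _ => by ring
    rw [h2]
    ring
  have hd1 : Differentiable ℂ fun t : ℂ => (A + t • B).det := by
    refine det_diff fun i k => ?_
    simp only [Matrix.add_apply, Matrix.smul_apply, smul_eq_mul]
    fun_prop
  have hd2 : Differentiable ℂ fun t : ℂ => ((A + t • B).updateRow j v).det := by
    refine det_diff fun i k => ?_
    simp only [Matrix.updateRow_apply]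
    split_ifs
    · fun_prop
    · simp only [Matrix.add_apply, Matrix.smul_apply, smul_eq_mul]
      fun_prop
  have e2 : deriv (fun t : ℂ => ((A + t • B).updateRow j (r + t • ρ)).det) 0 =
      u j * deriv (fun t : ℂ => (A + t • B).det) 0 + (A.updateRow j v).det := by
    rw [e1]
    have h3 := ((hd1 0).hasDerivAt.const_mul (u j)).add ((hasDerivAt_id (0:ℂ)).mul (hd2 0).hasDerivAt)
    have h4 := h3.deriv
    simp only [id, zero_smul, add_zero, one_mul, zero_mul] at h4
    exact h4
  have e3 : (A.updateRow j r).det = u j * A.det := by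
    have h3 := cram A hA r j
    rw [hu]
    simp only
    rw [h3]
    field_simp
  rw [e2, e3] at h
  have h5 : (A.updateRow j v).det = 0 := by
    have h6 : A.det * (A.updateRow j v).det = 0 := by linear_combination h
    exact (mul_eq_zero.1 h6).resolve_left hA
  have h7 := cram A hA v j
  rw [h5, zero_div, hv] at h7
  simp only [sub_mul, Finset.sum_sub_distrib] at h7
  rw [sub_eq_zero] at h7
  rw [h7]
  have h8 : ∀ t, (∑ s, u s * B s t) * A⁻¹ t j = ∑ s, u s * (B s t * A⁻¹ t j) := by
    intro t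
    rw [Finset.sum_mul]
    exact Finset.sum_congr rfl fun s _ => by ring
  simp only [h8]
  rw [Finset.sum_comm]
  refine Finset.sum_congr rfl fun s _ => ?_
  rw [← Finset.mul_sum, hu]

theorem t_J5 : S_TLU := by
  intro q b hb g ξ w _ hm hh
  obtain ⟨P, hP⟩ : ∃ P, P = pmat b g w := ⟨_, rfl⟩
  have hPd : P.det ≠ 0 := by rw [hP]; exact pmat_det hb g w hm
  have hPp : IsP b P := by rw [hP]; exact pmat_isP hb g w
  obtain ⟨Y, hY⟩ : ∃ Y : Matrix (Fin q) (Fin q) ℂ, Y = Matrix.of fun (k j : Fin q) =>
      if h : (k : ℕ) < nb b j then ∑ s, (blk g w (nb b j))⁻¹ ⟨k, h⟩ s * (ξ * P) (w s) j else 0 :=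
    ⟨_, rfl⟩
  have hYp : IsP b Y := by
    intro i j hij
    rw [hY, Matrix.of_apply, dif_neg]
    rw [lt_nb hb]
    omega
  have key : ∀ i j, (g * Y) (w i) j = (ξ * P) (w i) j := by
    intro i j
    have hj : (j : ℕ) < nb b j := (lt_nb hb j j).2 le_rfl
    have hd : (blk g w (nb b j)).det ≠ 0 := hm j
    have e1 : (g * Y) (w i) j = ∑ t : {i : Fin q // (i : ℕ) < nb b j},
        g (w i) t * ∑ s, (blk g w (nb b j))⁻¹ t s * (ξ * P) (w s) j := by
      rw [Matrix.mul_apply, ← sum_sub]
      refine Finset.sum_congr rfl fun t _ => ?_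
      rw [hY, Matrix.of_apply]
      by_cases h : (t : ℕ) < nb b j
      · rw [dif_pos h, dif_pos h]
      · rw [dif_neg h, dif_neg h, mul_zero]
    have e2 : (g * Y) (w i) j = ∑ s, (∑ t : {i : Fin q // (i : ℕ) < nb b j},
        g (w i) t * (blk g w (nb b j))⁻¹ t s) * (ξ * P) (w s) j := by
      rw [e1]
      simp only [Finset.mul_sum, Finset.sum_mul]
      rw [Finset.sum_comm]
      refine Finset.sum_congr rfl fun s _ => Finset.sum_congr rfl fun t _ => ?_
      ring
    rw [e2]
    by_cases hi : (i : ℕ) < nb b j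
    · have h1 : ∀ s, ∑ t : {i : Fin q // (i : ℕ) < nb b j},
          g (w i) t * (blk g w (nb b j))⁻¹ t s = (1 : Matrix {i : Fin q // (i : ℕ) < nb b j} {i : Fin q // (i : ℕ) < nb b j} ℂ) ⟨i, hi⟩ s := by
        intro s
        rw [← Matrix.mul_nonsing_inv (blk g w (nb b j)) (isUnit_iff_ne_zero.2 hd),
          Matrix.mul_apply]
        rfl
      simp only [h1]
      rw [Finset.sum_eq_single (⟨i, hi⟩ : {i : Fin q // (i : ℕ) < nb b j})]
      · rw [Matrix.one_apply_eq, one_mul]
      · intro s _ hs
        rw [Matrix.one_apply_ne (Ne.symm hs), zero_mul]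
      · intro h
        exact absurd (Finset.mem_univ _) h
    · have hbi : b j < b i := by
        rw [lt_nb hb] at hi
        omega
      have h1 := hh i j hbi
      have h2 : ∀ t : ℂ, FL.mnv (g + t • ξ) (ex w i j) (nb b j) =
          ((blk g w (nb b j) + t • blk ξ w (nb b j)).updateRow ⟨j, hj⟩
            ((fun x : {i : Fin q // (i : ℕ) < nb b j} => g (w i) x) +
              t • fun x : {i : Fin q // (i : ℕ) < nb b j} => ξ (w i) x)).det := by
        intro t
        rw [← det_blk, blk_ex _ w hi hj]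
        rfl
      have h3 : ∀ t : ℂ, FL.mnv (g + t • ξ) w (nb b j) =
          (blk g w (nb b j) + t • blk ξ w (nb b j)).det := fun t => rfl
      have h4 : FL.mnv g (ex w i j) (nb b j) =
          ((blk g w (nb b j)).updateRow ⟨j, hj⟩ fun t => g (w i) t).det := by
        rw [← det_blk, blk_ex _ w hi hj]
      have h5 := deriv_row (blk g w (nb b j)) (blk ξ w (nb b j)) hd (fun t => g (w i) t)
        (fun t => ξ (w i) t) ⟨j, hj⟩ (by
          simp only [h2, h3] at h1
          rw [h4] at h1
          exact h1)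
      have h6 : ∀ k, (ξ * P) k j = ∑ t : {i : Fin q // (i : ℕ) < nb b j},
          ξ k t * (blk g w (nb b j))⁻¹ t ⟨j, hj⟩ := by
        intro k
        rw [hP]
        exact mul_pmat g w hj ξ k
      rw [h6 (w i), h5]
      refine Finset.sum_congr rfl fun s _ => ?_
      rw [h6]
      rfl
  have hgY : g * Y = ξ * P := by
    ext i j
    have := key (w.symm i) j
    rwa [Equiv.apply_symm_apply] at this
  refine ⟨Y * P⁻¹, ?_, ?_⟩
  · have hinv : Matrix.BlockTriangular P⁻¹ b := by
      let _ : Invertible P := P.invertibleOfIsUnitDet (isUnit_iff_ne_zero.2 hPd)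
      exact Matrix.blockTriangular_inv_of_blockTriangular hPp
    have h1 : Matrix.BlockTriangular Y b := hYp
    exact h1.mul hinv
  · rw [← Matrix.mul_assoc, hgY, Matrix.mul_assoc,
      Matrix.mul_nonsing_inv _ (isUnit_iff_ne_zero.2 hPd), Matrix.mul_one]

end Pool.Agent.Q65.FF
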