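import Pool.Agent.Q47.FF.Stm

/-!
Flag bundles (helper47), jobs J4 and J5: the decomposition of a matrix with nonzero minors.
-/

set_option autoImplicit false

namespace Pool.Agent.Q65.FF

open Q47.FF Q47

variable {q : ℕ}

theorem lt_nb {b : Fin q → ℕ} (hb : Monotone b) (k j : Fin q) : (k : ℕ) < nb b j ↔ b k ≤ b j := by
  constructor
  · intro h
    by_contra h1
    push Not at h1
    have h2 : (Finset.univ.filter fun i => b i ≤ b j) ⊆ Finset.Iio k := by
      intro i hi
      rw [Finset.mem_Iio]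
      by_contra h3
      push Not at h3
      have h4 := hb h3
      have h5 := (Finset.mem_filter.1 hi).2
      omega
    have h3 := Finset.card_le_card h2
    rw [Fin.card_Iio] at h3
    unfold nb at h
    omega
  · intro h
    have h2 : Finset.Iic k ⊆ (Finset.univ.filter fun i => b i ≤ b j) := by
      intro i hi
      rw [Finset.mem_Iic] at hi
      exact Finset.mem_filter.2 ⟨Finset.mem_univ _, (hb hi).trans h⟩
    have h3 := Finset.card_le_card h2
    rw [Fin.card_Iic] at h3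
    unfold nb
    omega

/-- the block of the rows `w` and the first `n` columns -/
noncomputable def blk (g : Matrix (Fin q) (Fin q) ℂ) (w : Fin q → Fin q) (n : ℕ) :
    Matrix {i : Fin q // (i : ℕ) < n} {i : Fin q // (i : ℕ) < n} ℂ :=
  Matrix.of fun i j => g (w i) j

theorem det_blk (g : Matrix (Fin q) (Fin q) ℂ) (w : Fin q → Fin q) (n : ℕ) :
    (blk g w n).det = FL.mnv g w n := rfl

theorem sum_sub {n : ℕ} (f : {i : Fin q // (i : ℕ) < n} → ℂ) :
    ∑ k : Fin q, (if h : (k : ℕ) < n then f ⟨k, h⟩ else 0) = ∑ k, f k := by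
  rw [← Finset.sum_filter_add_sum_filter_not Finset.univ (fun k : Fin q => (k : ℕ) < n)]
  rw [Finset.sum_eq_zero (s := Finset.univ.filter fun k : Fin q => ¬ (k : ℕ) < n), add_zero]
  · rw [Finset.sum_subtype (Finset.univ.filter fun k : Fin q => (k : ℕ) < n)
      (p := fun k : Fin q => (k : ℕ) < n) (fun x => by simp)]
    refine Finset.sum_congr rfl fun k _ => ?_
    rw [dif_pos k.2]
  · intro k hk
    rw [dif_neg (Finset.mem_filter.1 hk).2]

/-- the matrix `p` -/
noncomputable def pmat (b : Fin q → ℕ) (g : Matrix (Fin q) (Fin q) ℂ) (w : Fin q → Fin q) :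
    Matrix (Fin q) (Fin q) ℂ :=
  Matrix.of fun i j => if h : (i : ℕ) < nb b j then
    if h' : (j : ℕ) < nb b j then (blk g w (nb b j))⁻¹ ⟨i, h⟩ ⟨j, h'⟩ else 0 else 0

theorem mul_pmat {b : Fin q → ℕ} (g : Matrix (Fin q) (Fin q) ℂ) (w : Fin q → Fin q)
    {j : Fin q} (hj : (j : ℕ) < nb b j) (M : Matrix (Fin q) (Fin q) ℂ) (k : Fin q) :
    (M * pmat b g w) k j = ∑ t : {i : Fin q // (i : ℕ) < nb b j},
      M k t * (blk g w (nb b j))⁻¹ t ⟨j, hj⟩ := by
  rw [Matrix.mul_apply, ← sum_sub]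
  refine Finset.sum_congr rfl fun t _ => ?_
  unfold pmat
  rw [Matrix.of_apply]
  by_cases h : (t : ℕ) < nb b j
  · rw [dif_pos h, dif_pos hj, dif_pos h]
  · rw [dif_neg h, dif_neg h, mul_zero]

theorem cram {n : Type} [Fintype n] [DecidableEq n] (A : Matrix n n ℂ) (hA : A.det ≠ 0)
    (r : n → ℂ) (j : n) : ∑ t, r t * A⁻¹ t j = (A.updateRow j r).det / A.det := by
  have h1 := Matrix.cramer_transpose_apply A r j
  have h2 : ∀ t, A⁻¹ t j = A.det⁻¹ * A.adjugate t j := by
    intro t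
    rw [Matrix.inv_def, Ring.inverse_eq_inv']
    rfl
  have h3 : A.transpose.cramer r j = ∑ t, A.adjugate t j * r t := by
    rw [Matrix.cramer_eq_adjugate_mulVec, ← Matrix.adjugate_transpose]
    rfl
  rw [← h1, h3, Finset.sum_div]
  refine Finset.sum_congr rfl fun t _ => ?_
  rw [h2]
  field_simp

theorem blk_ex (g : Matrix (Fin q) (Fin q) ℂ) (w : Equiv.Perm (Fin q)) {n : ℕ} {i j : Fin q}
    (hi : ¬ (i : ℕ) < n) (hj : (j : ℕ) < n) :
    blk g (ex w i j) n = (blk g w n).updateRow ⟨j, hj⟩ (fun t => g (w i) t) := by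
  ext s t
  rw [Matrix.updateRow_apply]
  unfold blk
  rw [Matrix.of_apply, Matrix.of_apply]
  unfold ex
  by_cases h : s = ⟨j, hj⟩
  · rw [if_pos h, h]
    simp
  · rw [if_neg h]
    have h1 : (s : Fin q) ≠ j := fun e => h (Subtype.ext e)
    have h2 : (s : Fin q) ≠ i := by
      intro e
      apply hi
      rw [← e]
      exact s.2
    rw [Equiv.swap_apply_of_ne_of_ne h1 h2]

theorem mul_pmat_w {b : Fin q → ℕ} (hb : Monotone b) (g : Matrix (Fin q) (Fin q) ℂ)
    (w : Equiv.Perm (Fin q)) (hm : ∀ j, FL.mnv g w (nb b j) ≠ 0) (i j : Fin q) :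
    (g * pmat b g w) (w i) j =
      if b j < b i then FL.mnv g (ex w i j) (nb b j) / FL.mnv g w (nb b j)
      else if i = j then 1 else 0 := by
  have hj : (j : ℕ) < nb b j := (lt_nb hb j j).2 le_rfl
  have hd : (blk g w (nb b j)).det ≠ 0 := hm j
  rw [mul_pmat g w hj]
  split_ifs with h1 h2
  · have hi : ¬ (i : ℕ) < nb b j := by
      rw [lt_nb hb]
      omega
    rw [cram _ hd, ← blk_ex g w hi hj]
    rfl
  · have hi : (i : ℕ) < nb b j := by
      rw [lt_nb hb]
      omega
    have h3 : ((blk g w (nb b j)) * (blk g w (nb b j))⁻¹) ⟨i, hi⟩ ⟨j, hj⟩ = 1 := by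
      rw [Matrix.mul_nonsing_inv _ (isUnit_iff_ne_zero.2 hd)]
      subst h2
      exact Matrix.one_apply_eq _
    rw [← h3, Matrix.mul_apply]
    rfl
  · have hi : (i : ℕ) < nb b j := by
      rw [lt_nb hb]
      omega
    have h3 : ((blk g w (nb b j)) * (blk g w (nb b j))⁻¹) ⟨i, hi⟩ ⟨j, hj⟩ = 0 := by
      rw [Matrix.mul_nonsing_inv _ (isUnit_iff_ne_zero.2 hd)]
      exact Matrix.one_apply_ne fun e => h2 (congrArg Subtype.val e)
    rw [← h3, Matrix.mul_apply]
    rfl

theorem pmat_isP {b : Fin q → ℕ} (hb : Monotone b) (g : Matrix (Fin q) (Fin q) ℂ)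
    (w : Fin q → Fin q) : IsP b (pmat b g w) := by
  intro i j hij
  unfold pmat
  rw [Matrix.of_apply, dif_neg]
  rw [lt_nb hb]
  omega

theorem pmat_det {b : Fin q → ℕ} (hb : Monotone b) (g : Matrix (Fin q) (Fin q) ℂ)
    (w : Equiv.Perm (Fin q)) (hm : ∀ j, FL.mnv g w (nb b j) ≠ 0) : (pmat b g w).det ≠ 0 := by
  intro h0
  have h1 : ((g * pmat b g w).submatrix w id).det = 1 := by
    rw [Matrix.det_of_isLowerTriangular]
    · refine Finset.prod_eq_one fun i _ => ?_
      rw [Matrix.submatrix_apply, id, mul_pmat_w hb g w hm, if_neg (lt_irrefl _), if_pos rfl]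
    · intro i j hij
      have h2 : i < j := hij
      rw [Matrix.submatrix_apply, id, mul_pmat_w hb g w hm, if_neg, if_neg h2.ne]
      have := hb h2.le
      omega
  rw [Matrix.det_permute, Matrix.det_mul, h0, mul_zero, mul_zero] at h1
  exact zero_ne_one h1

theorem t_J4 : S_LU := by
  intro q b hb g w hm
  exact ⟨pmat b g w, pmat_det hb g w hm, pmat_isP hb g w, mul_pmat_w hb g w hm⟩

end Pool.Agent.Q65.FF
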